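import Mathlib
import Pool.Agent.H317.GI.Stm

/-!
# CPX: integral traces over an algebraically closed field of characteristic zero are traces of a complex representation
-/

set_option autoImplicit false

namespace Pool.Agent.H682.GI

open Matrix Pool.Agent.H317.GR Pool.Agent.H317.GH Pool.Agent.H317.GI

/-- `S_DSC → S_CPX` (descend to an algebraic closure of `ℚ`, then embed it in `ℂ`) -/
theorem cpx : S_DSC → S_CPX := by
  intro hD K _ _ _ G _ _ n ρ ψ hψ
  have halg : Algebra.IsAlgebraic ℚ (AlgebraicClosure ℚ) := by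
    have h := AlgebraicClosure.isAlgebraic ℚ
    convert h
    · rfl
    · exact Subsingleton.elim _ _
  let e : AlgebraicClosure ℚ →ₐ[ℚ] K := IsAlgClosed.lift
  let _ : Algebra (AlgebraicClosure ℚ) K := e.toRingHom.toAlgebra
  obtain ⟨ρ', -, h2⟩ := hD (AlgebraicClosure ℚ) K G n ρ
  let c : AlgebraicClosure ℚ →ₐ[ℚ] ℂ := IsAlgClosed.lift
  refine ⟨(GeneralLinearGroup.map c.toRingHom).comp ρ', fun g => ?_⟩
  have h3 : (ρ' g).val.trace = ((ψ g : ℤ) : AlgebraicClosure ℚ) := by
    apply h2 g
    rw [hψ g, map_intCast]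
  have h4 : ((GeneralLinearGroup.map c.toRingHom).comp ρ' g).val = (ρ' g).val.map c.toRingHom := rfl
  rw [h4]
  have h5 : ((ρ' g).val.map c.toRingHom).trace = c.toRingHom (ρ' g).val.trace := by
    simp [Matrix.trace, map_sum]
  rw [h5, h3, map_intCast]

end Pool.Agent.H682.GI
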